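import Pool.Agent.helper90.ZD.SpecB

/-!
# Project zd: module BQC (cells)
-/

set_option autoImplicit false

open Complex MeasureTheory

namespace Pool.Agent.ZD

open Pool.Agent.helper84.DM Pool.Agent.helper78.ED Pool.Agent.DH

theorem BQC_cont (W : Finset ℝ) : Continuous fun x : ℝ => ‖rho W x‖ ^ 3 := by
  unfold rho
  fun_prop

theorem BQC_sum (n : ℕ) (F : ℤ → ℝ) :
    ∑ k ∈ Finset.range (2 * n + 1), F ((k : ℤ) - n) = ∑ j ∈ Finset.Icc (-(n : ℤ)) n, F j := by
  refine Finset.sum_nbij (fun k : ℕ => (k : ℤ) - n) ?_ ?_ ?_ ?_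
  · intro k hk
    rw [Finset.mem_range] at hk
    rw [Finset.mem_Icc]
    constructor <;> omega
  · intro a _ b _ h
    simp only at h
    omega
  · intro j hj
    rw [Finset.coe_Icc, Set.mem_Icc] at hj
    refine ⟨(j + n).toNat, ?_, ?_⟩
    · rw [Finset.coe_range, Set.mem_Iio]
      omega
    · simp only
      omega
  · intro k _
    rfl

theorem BQC : BQC_stmt := by
  intro T W hT
  have hT0 : 0 < T := by linarith
  have hex : ∀ j : ℤ, ∃ y : ℝ, y ∈ Set.Icc ((j : ℝ) / T) (((j : ℝ) + 1) / T) ∧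
      IsMaxOn (fun x : ℝ => ‖rho W x‖ ^ 3) (Set.Icc ((j : ℝ) / T) (((j : ℝ) + 1) / T)) y := by
    intro j
    refine IsCompact.exists_isMaxOn isCompact_Icc ?_ (BQC_cont W).continuousOn
    rw [Set.nonempty_Icc]
    gcongr
    linarith
  choose x hx hmax using hex
  refine ⟨x, fun j => ⟨(hx j).1, (hx j).2⟩, ?_, ?_⟩
  · obtain ⟨n, hn⟩ : ∃ n : ℕ, ⌈5 * T⌉ = (n : ℤ) := by
      have h0 : 0 ≤ ⌈5 * T⌉ := Int.ceil_nonneg (by positivity)
      exact ⟨⌈5 * T⌉.toNat, by omega⟩
    have hn5 : 5 * T ≤ (n : ℝ) := by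
      have := Int.le_ceil (5 * T)
      rw [hn] at this
      exact_mod_cast this
    rw [hn, ← BQC_sum n (fun j => ‖rho W (x j)‖ ^ 3), Finset.mul_sum]
    have hint : ∀ a b : ℝ, IntervalIntegrable (fun y : ℝ => ‖rho W y‖ ^ 3) volume a b := fun a b =>
      (BQC_cont W).intervalIntegrable a b
    have hadj := intervalIntegral.sum_integral_adjacent_intervals (μ := volume)
      (f := fun y : ℝ => ‖rho W y‖ ^ 3) (a := fun k : ℕ => ((k : ℝ) - n) / T) (n := 2 * n + 1)
      (fun k _ => hint _ _)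
    have hle : q3 W ≤ ∫ y in (((0 : ℕ) : ℝ) - n) / T..(((2 * n + 1 : ℕ) : ℝ) - n) / T, ‖rho W y‖ ^ 3 := by
      unfold q3
      apply intervalIntegral.integral_mono_interval
      · rw [div_le_iff₀ hT0]
        push_cast
        linarith
      · norm_num
      · rw [le_div_iff₀ hT0]
        push_cast
        linarith
      · exact Filter.Eventually.of_forall fun y => by positivity
      · exact hint _ _
    refine hle.trans ?_
    rw [← hadj]
    refine Finset.sum_le_sum fun k _ => ?_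
    have hab : ((k : ℝ) - n) / T ≤ (((k + 1 : ℕ) : ℝ) - n) / T := by
      gcongr
      push_cast
      linarith
    have hj := hmax ((k : ℤ) - n)
    have h1 : ∀ y ∈ Set.Icc (((k : ℝ) - n) / T) ((((k + 1 : ℕ) : ℝ) - n) / T),
        ‖rho W y‖ ^ 3 ≤ ‖rho W (x ((k : ℤ) - n))‖ ^ 3 := by
      intro y hy
      refine hj ?_
      push_cast at hy ⊢
      refine ⟨hy.1, hy.2.trans (le_of_eq ?_)⟩
      ring
    calc ∫ y in (((k : ℝ) - n) / T)..((((k + 1 : ℕ) : ℝ) - n) / T), ‖rho W y‖ ^ 3
        ≤ ∫ y in (((k : ℝ) - n) / T)..((((k + 1 : ℕ) : ℝ) - n) / T), ‖rho W (x ((k : ℤ) - n))‖ ^ 3 :=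
          intervalIntegral.integral_mono_on hab (hint _ _) intervalIntegrable_const h1
      _ = 1 / T * ‖rho W (x ((k : ℤ) - n))‖ ^ 3 := by
          rw [intervalIntegral.integral_const, smul_eq_mul]
          push_cast
          field_simp
          ring
  · intro η hη
    have hη0 : 0 < η := lt_of_lt_of_le (by positivity) hη
    refine ⟨?_, ?_⟩
    · intro j hj
      rw [Finset.mem_Icc] at hj
      have hc := Int.ceil_lt_add_one (5 * T)
      have h1 : (j : ℝ) ≤ 5 * T + 1 := by
        have : (j : ℝ) ≤ (⌈5 * T⌉ : ℝ) := by exact_mod_cast hj.2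
        linarith
      have h2 : -(5 * T + 1) ≤ (j : ℝ) := by
        have : ((-⌈5 * T⌉ : ℤ) : ℝ) ≤ (j : ℝ) := by exact_mod_cast hj.1
        push_cast at this
        linarith
      rw [abs_le]
      constructor
      · refine le_trans ?_ (hx j).1
        rw [le_div_iff₀ hT0]
        linarith
      · refine (hx j).2.trans ?_
        rw [div_le_iff₀ hT0]
        linarith
    · intro z
      have hsub : ((Finset.Icc (-⌈5 * T⌉) ⌈5 * T⌉).filter fun j => |x j - z| ≤ η) ⊆
          Finset.Icc ⌈T * (z - η) - 1⌉ ⌊T * (z + η)⌋ := by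
        intro j hj
        rw [Finset.mem_filter] at hj
        have habs := abs_le.mp hj.2
        rw [Finset.mem_Icc]
        constructor
        · rw [Int.ceil_le]
          have h := (hx j).2
          rw [le_div_iff₀ hT0] at h
          nlinarith
        · rw [Int.le_floor]
          have h := (hx j).1
          rw [div_le_iff₀ hT0] at h
          nlinarith
      have hcard := Finset.card_le_card hsub
      rw [Int.card_Icc] at hcard
      have hreal : (((Finset.Icc (-⌈5 * T⌉) ⌈5 * T⌉).filter fun j => |x j - z| ≤ η).card : ℝ) ≤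
          ((⌊T * (z + η)⌋ + 1 - ⌈T * (z - η) - 1⌉).toNat : ℝ) := by exact_mod_cast hcard
      refine hreal.trans ?_
      have hfl := Int.floor_le (T * (z + η))
      have hce := Int.le_ceil (T * (z - η) - 1)
      rcases le_or_gt 0 (⌊T * (z + η)⌋ + 1 - ⌈T * (z - η) - 1⌉) with h | h
      · have : (((⌊T * (z + η)⌋ + 1 - ⌈T * (z - η) - 1⌉).toNat : ℤ) : ℝ) =
            ((⌊T * (z + η)⌋ + 1 - ⌈T * (z - η) - 1⌉ : ℤ) : ℝ) := by rw [Int.toNat_of_nonneg h]
        rw [Int.cast_natCast] at this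
        rw [this]
        push_cast
        nlinarith
      · rw [Int.toNat_of_nonpos h.le]
        push_cast
        positivity

end Pool.Agent.ZD
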