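import Pool.Agent.helper90.ZD.SpecB

/-!
# Project zd: module BS1 (simultaneous diagonal data)
-/

set_option autoImplicit false

open Complex MeasureTheory
open scoped ComplexOrder

namespace Pool.Agent.ZD

open Pool.Agent.helper84.DM Pool.Agent.helper78.ED Pool.Agent.DH

theorem BS1_tr {ι : Type} [Fintype ι] [DecidableEq ι] (U M : Matrix ι ι ℂ) (h1 : star U * U = 1) :
    (U * M * star U).trace = M.trace := by
  rw [Matrix.trace_mul_comm, ← Matrix.mul_assoc, h1, Matrix.one_mul]

theorem BS1_fro {ι : Type} [Fintype ι] [DecidableEq ι] (G : Matrix ι ι ℂ) :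
    (star G * G).trace = ((∑ i, ∑ j, ‖G i j‖ ^ 2 : ℝ) : ℂ) := by
  rw [Matrix.trace]
  push_cast
  rw [Finset.sum_comm]
  refine Finset.sum_congr rfl fun j _ => ?_
  rw [Matrix.diag_apply, Matrix.mul_apply]
  refine Finset.sum_congr rfl fun i _ => ?_
  rw [Matrix.star_apply]
  have := Complex.conj_mul' (G i j)
  simpa using this

theorem BS1 : BS1_stmt := by
  intro ι _ _ B G hB hG
  have hH := hB.isHermitian
  obtain ⟨U, D, hU1, hU2, hD, hBD⟩ : ∃ (U : Matrix ι ι ℂ) (D : ι → ℝ), star U * U = 1 ∧ U * star U = 1 ∧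
      (∀ i, 0 ≤ D i) ∧ B = U * Matrix.diagonal (fun i => ((D i : ℝ) : ℂ)) * star U := by
    refine ⟨(hH.eigenvectorUnitary : Matrix ι ι ℂ), hH.eigenvalues, ?_, ?_, ?_, ?_⟩
    · exact Unitary.coe_star_mul_self _
    · exact Unitary.coe_mul_star_self _
    · exact fun i => hB.eigenvalues_nonneg i
    · conv_lhs => rw [hH.spectral_theorem, Unitary.conjStarAlgAut_apply]
      rfl
  have hG' : (star U * G * U).PosSemidef := by
    have := hG.conjTranspose_mul_mul_same U
    exact this
  set G' : Matrix ι ι ℂ := star U * G * U with hGdef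
  have hGG : G = U * G' * star U := by
    rw [hGdef]
    calc G = (U * star U) * G * (U * star U) := by rw [hU2, Matrix.one_mul, Matrix.mul_one]
      _ = U * (star U * G * U) * star U := by simp only [Matrix.mul_assoc]
  have hdiag : ∀ i, 0 ≤ (G' i i).re ∧ G' i i = (((G' i i).re : ℝ) : ℂ) := by
    intro i
    have h0 : 0 ≤ G' i i := hG'.diag_nonneg
    rw [Complex.nonneg_iff] at h0
    refine ⟨h0.1, ?_⟩
    apply Complex.ext
    · simp
    · simp [← h0.2]
  have hmul : ∀ M N : Matrix ι ι ℂ, (U * M * star U) * (U * N * star U) = U * (M * N) * star U := by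
    intro M N
    calc (U * M * star U) * (U * N * star U) = U * M * (star U * U) * N * star U := by
          simp only [Matrix.mul_assoc]
      _ = U * (M * N) * star U := by rw [hU1, Matrix.mul_one]; simp only [Matrix.mul_assoc]
  refine ⟨D, fun i => (G' i i).re, hD, fun i => (hdiag i).1, ?_, ?_, ?_, ?_, ?_⟩
  · rw [hBD, BS1_tr U _ hU1, Matrix.trace_diagonal]
    push_cast
    rfl
  · rw [hBD, hmul, hmul, BS1_tr U _ hU1, Matrix.diagonal_mul_diagonal, Matrix.diagonal_mul_diagonal,
      Matrix.trace_diagonal]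
    push_cast
    refine Finset.sum_congr rfl fun i _ => ?_
    ring
  · rw [hGG, BS1_tr U _ hU1, Matrix.trace]
    push_cast
    refine Finset.sum_congr rfl fun i _ => ?_
    rw [Matrix.diag_apply]
    exact (hdiag i).2
  · have hfro : ∑ i, ∑ j, ‖G i j‖ ^ 2 = ∑ i, ∑ j, ‖G' i j‖ ^ 2 := by
      have h1 := BS1_fro G
      have h2 := BS1_fro G'
      have h3 : (star G * G).trace = (star G' * G').trace := by
        have : star G = U * star G' * star U := by
          conv_lhs => rw [hGG]
          rw [star_mul, star_mul, star_star]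
          simp only [Matrix.mul_assoc]
        rw [this]
        conv_lhs => rw [hGG]
        rw [hmul, BS1_tr U _ hU1]
      rw [h1, h2] at h3
      exact_mod_cast h3
    rw [hfro]
    refine Finset.sum_le_sum fun i _ => ?_
    have h4 : (G' i i).re ^ 2 = ‖G' i i‖ ^ 2 := by
      rw [(hdiag i).2]
      simp
    rw [h4]
    exact Finset.single_le_sum (f := fun j => ‖G' i j‖ ^ 2) (fun j _ => by positivity) (Finset.mem_univ i)
  · conv_lhs => rw [hBD, hGG]
    rw [hmul, BS1_tr U _ hU1, Matrix.trace]
    push_cast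
    refine Finset.sum_congr rfl fun i _ => ?_
    rw [Matrix.diag_apply, Matrix.diagonal_mul, ← (hdiag i).2]

end Pool.Agent.ZD
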